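import Pool.Agent.Helper5.SM.Marg

/-!
# Project SM, block TR2: existence of large partial transversals
-/

set_option autoImplicit false

open MeasureTheory Set Filter Topology

namespace Pool.Agent.Helper63.SM

variable {X : Type*} [MeasurableSpace X] {μ : Measure X} [IsProbabilityMeasure μ]
  {R : X → X → Prop} {k : ℕ}

omit [IsProbabilityMeasure μ] in
theorem meas_IndS (hR : MeasurableSet {p : X × X | R p.1 p.2}) (S : Finset (Fin k)) :
    MeasurableSet (IndS R S) := by
  have h : IndS R S = ⋂ i ∈ S, ⋂ j ∈ S, {x : Fin k → X | i ≠ j → ¬ R (x i) (x j)} := by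
    ext x
    simp only [IndS, mem_ofPred_eq, mem_iInter]
  rw [h]
  refine S.measurableSet_biInter fun i _ => S.measurableSet_biInter fun j _ => ?_
  by_cases hij : i = j
  · have : {x : Fin k → X | i ≠ j → ¬ R (x i) (x j)} = univ := by
      ext x; simp [hij]
    rw [this]; exact MeasurableSet.univ
  · have : {x : Fin k → X | i ≠ j → ¬ R (x i) (x j)} =
        ((fun x : Fin k → X => (x i, x j)) ⁻¹' {p : X × X | R p.1 p.2})ᶜ := by
      ext x; simp [hij]
    rw [this]
    exact (hR.preimage ((measurable_pi_apply i).prodMk (measurable_pi_apply j))).compl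

omit [IsProbabilityMeasure μ] in
theorem pr_eq (k : ℕ) : pr μ R k = (Measure.pi fun _ : Fin k => μ).real (IndS R Finset.univ) := by
  unfold pr IndS
  congr 1
  ext x
  simp

theorem ex_meas (hR : MeasurableSet {p : X × X | R p.1 p.2}) (S : Finset (Fin k)) :
    Measurable (ex μ R S : (Fin k → X) → ℝ) :=
  mg_meas (measurable_const.indicator (meas_IndS hR _)) S

omit [IsProbabilityMeasure μ] in
theorem ex_nonneg (S : Finset (Fin k)) (x : Fin k → X) : 0 ≤ ex μ R S x :=
  mg_nonneg (fun y => indicator_nonneg (fun _ _ => zero_le_one) y) S x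

omit [IsProbabilityMeasure μ] in
theorem ex_eq (hR : MeasurableSet {p : X × X | R p.1 p.2}) (S : Finset (Fin k)) (x : Fin k → X) :
    ex μ R S x = (Measure.pi fun _ : Fin k => μ).real {y | S.piecewise x y ∈ IndS R Finset.univ} := by
  unfold ex mg
  have hm : MeasurableSet {y : Fin k → X | S.piecewise x y ∈ IndS R Finset.univ} :=
    (meas_IndS hR _).preimage ((measurable_pw S).comp (measurable_const.prodMk measurable_id))
  rw [← integral_indicator_one hm]
  rfl

theorem ex_le_one (hR : MeasurableSet {p : X × X | R p.1 p.2}) (S : Finset (Fin k)) (x : Fin k → X) :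
    ex μ R S x ≤ 1 := by
  rw [ex_eq hR]; exact measureReal_le_one

omit [IsProbabilityMeasure μ] in
theorem ex_empty (hR : MeasurableSet {p : X × X | R p.1 p.2}) (x : Fin k → X) :
    ex μ R ∅ x = pr μ R k := by
  rw [ex_eq hR, pr_eq]
  simp only [Finset.piecewise_empty]
  rfl

theorem int_ex (hR : MeasurableSet {p : X × X | R p.1 p.2}) (S : Finset (Fin k)) :
    ∫ x, ex μ R S x ∂(Measure.pi fun _ : Fin k => μ) = pr μ R k := by
  have h1 : Integrable ((IndS R Finset.univ).indicator fun _ => (1 : ℝ))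
      (Measure.pi fun _ : Fin k => μ) :=
    (integrable_const (1 : ℝ)).indicator (meas_IndS hR _)
  have h2 := int_pw (μ := μ) S h1
  unfold ex mg
  rw [← h2, pr_eq]
  exact integral_indicator_one (meas_IndS hR _)

/-- the tuples in `IndS univ` for which `V` is the best set -/
def GV (μ : Measure X) (R : X → X → Prop) (Λ : ℝ) (V : Finset (Fin k)) : Set (Fin k → X) :=
  {x | x ∈ IndS R Finset.univ ∧ ∀ S : Finset (Fin k), V ⊆ S →
    ex μ R S x ≤ ex μ R V x * Λ ^ (S.card - V.card)}

theorem GV_meas (hR : MeasurableSet {p : X × X | R p.1 p.2}) (Λ : ℝ) (V : Finset (Fin k)) :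
    MeasurableSet (GV μ R Λ V) := by
  have h : GV μ R Λ V = IndS R Finset.univ ∩ ⋂ S ∈ (Finset.univ.filter fun S : Finset (Fin k) => V ⊆ S),
      {x : Fin k → X | ex μ R S x ≤ ex μ R V x * Λ ^ (S.card - V.card)} := by
    ext x
    simp only [GV, mem_ofPred_eq, mem_inter_iff, mem_iInter, Finset.mem_filter, Finset.mem_univ, true_and]
  rw [h]
  refine (meas_IndS hR _).inter (Finset.measurableSet_biInter _ fun S _ => ?_)
  exact measurableSet_le (ex_meas hR S) ((ex_meas hR V).mul_const _)

/-- every good tuple lies in some `GV` -/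
theorem exists_GV (hR : MeasurableSet {p : X × X | R p.1 p.2}) {Λ : ℝ} (hΛ : 0 < Λ) {v : ℕ}
    {x : Fin k → X} (hx : x ∈ IndS R Finset.univ)
    (hx2 : ∀ S : Finset (Fin k), v ≤ S.card → ex μ R S x < pr μ R k * Λ ^ S.card) :
    ∃ V : Finset (Fin k), V.card < v ∧ x ∈ GV μ R Λ V := by
  obtain ⟨V, -, hV⟩ := (Finset.univ : Finset (Finset (Fin k))).exists_max_image
    (fun S => ex μ R S x / Λ ^ S.card) ⟨∅, Finset.mem_univ _⟩
  refine ⟨V, ?_, hx, ?_⟩
  · by_contra hc
    have h1 := hx2 V (not_lt.1 hc)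
    have h2 := hV ∅ (Finset.mem_univ _)
    simp only [Finset.card_empty, pow_zero, div_one] at h2
    rw [ex_empty hR, le_div_iff₀ (by positivity)] at h2
    linarith
  · intro S hS
    have h1 := hV S (Finset.mem_univ _)
    have hc := Finset.card_le_card hS
    have e : Λ ^ S.card = Λ ^ V.card * Λ ^ (S.card - V.card) := by
      rw [← pow_add]; congr 1; omega
    rw [div_le_iff₀ (by positivity), e] at h1
    calc ex μ R S x ≤ ex μ R V x / Λ ^ V.card * (Λ ^ V.card * Λ ^ (S.card - V.card)) := h1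
      _ = ex μ R V x * Λ ^ (S.card - V.card) := by field_simp

/-- existence of large partial transversals -/
theorem trans_of
    (second_moment : ∀ {r : ℕ} (_ : 1 ≤ r)
      (V : Finset (Fin k)) (u : Fin k → X) {G : Set (Fin k → X)} (_ : MeasurableSet G)
      (_ : G ⊆ IndS R Finset.univ) {Λ g : ℝ} (_ : 0 ≤ Λ)
      (_ : ∀ y ∈ G, (∀ i ∈ V, y i = u i) → ∀ S : Finset (Fin k), V ⊆ S →
        ex μ R S y ≤ ex μ R V u * Λ ^ (S.card - V.card))
      (_ : g = (Measure.pi fun _ : Fin k => μ).real {y | V.piecewise u y ∈ G}) (_ : 0 < g),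
      g / (ex μ R V u * (1 + Λ / r) ^ k) ≤
        (Measure.pi fun _ : Fin k => Measure.pi fun _ : Fin r => μ).real
          {ω | ∃ c : Fin k → Fin r, V.piecewise u (fun b => ω b (c b)) ∈ G})
    (hR : MeasurableSet {p : X × X | R p.1 p.2}) {r : ℕ} (hr : 1 ≤ r) {Λ : ℝ}
    (hΛ : 0 < Λ) (hpr : 0 < pr μ R k) {v : ℕ} (hv : 1 ≤ v)
    (hstar : ∀ S : Finset (Fin k), v ≤ S.card → (Measure.pi fun _ : Fin k => μ).real
      {x | x ∈ IndS R Finset.univ ∧ pr μ R k * Λ ^ S.card ≤ ex μ R S x} ≤
        pr μ R k / 4 ^ k) (hk : 1 ≤ k) :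
    1 / (2 * ((Finset.univ : Finset (Finset (Fin k))).filter fun V => V.card < v).card *
        (1 + Λ / r) ^ k) ≤
      (Measure.pi fun _ : Fin k => Measure.pi fun _ : Fin r => μ).real
        {ω | ∃ (T : Finset (Fin k)) (c : Fin k → Fin r), k < T.card + v ∧
          ∀ i ∈ T, ∀ j ∈ T, i ≠ j → ¬ R (ω i (c i)) (ω j (c j))} := by
  classical
  set π : Measure (Fin k → X) := Measure.pi fun _ : Fin k => μ with hπ
  set N : Finset (Finset (Fin k)) := (Finset.univ : Finset (Finset (Fin k))).filter fun V => V.card < v with hN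
  have hN0 : 0 < N.card := Finset.card_pos.2 ⟨∅, by
    rw [hN, Finset.mem_filter]; exact ⟨Finset.mem_univ _, by rw [Finset.card_empty]; omega⟩⟩
  have hN0' : (0 : ℝ) < N.card := by exact_mod_cast hN0
  have hrpos : (0 : ℝ) < r := by exact_mod_cast hr
  -- the bad events
  set Bd : Finset (Fin k) → Set (Fin k → X) := fun S =>
    {x | x ∈ IndS R Finset.univ ∧ pr μ R k * Λ ^ S.card ≤ ex μ R S x} with hBd
  have hcov : IndS R Finset.univ ⊆ (⋃ S ∈ (Finset.univ.filter fun S : Finset (Fin k) => v ≤ S.card), Bd S) ∪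
      ⋃ V ∈ N, GV μ R Λ V := by
    intro x hx
    by_cases hb : ∃ S : Finset (Fin k), v ≤ S.card ∧ pr μ R k * Λ ^ S.card ≤ ex μ R S x
    · obtain ⟨S, hS1, hS2⟩ := hb
      left
      simp only [mem_iUnion]
      exact ⟨S, by rw [Finset.mem_filter]; exact ⟨Finset.mem_univ _, hS1⟩, hx, hS2⟩
    · push Not at hb
      obtain ⟨V, hV1, hV2⟩ := exists_GV hR hΛ hx hb
      right
      simp only [mem_iUnion]
      exact ⟨V, by rw [hN, Finset.mem_filter]; exact ⟨Finset.mem_univ _, hV1⟩, hV2⟩
  have h1 : pr μ R k ≤ (∑ S ∈ (Finset.univ.filter fun S : Finset (Fin k) => v ≤ S.card), π.real (Bd S)) +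
      ∑ V ∈ N, π.real (GV μ R Λ V) := by
    rw [pr_eq]
    refine (measureReal_mono hcov).trans ((measureReal_union_le _ _).trans ?_)
    exact add_le_add (measureReal_biUnion_finset_le _ _) (measureReal_biUnion_finset_le _ _)
  have h2 : (∑ S ∈ (Finset.univ.filter fun S : Finset (Fin k) => v ≤ S.card), π.real (Bd S)) ≤ pr μ R k / 2 := by
    calc (∑ S ∈ (Finset.univ.filter fun S : Finset (Fin k) => v ≤ S.card), π.real (Bd S)) ≤
        ∑ S ∈ (Finset.univ.filter fun S : Finset (Fin k) => v ≤ S.card), pr μ R k / 4 ^ k :=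
          Finset.sum_le_sum fun S hS => hstar S (Finset.mem_filter.1 hS).2
      _ ≤ ∑ _S : Finset (Fin k), pr μ R k / 4 ^ k :=
          Finset.sum_le_sum_of_subset_of_nonneg (Finset.filter_subset _ _) fun _ _ _ => by positivity
      _ = 2 ^ k * (pr μ R k / 4 ^ k) := by
          rw [Finset.sum_const, Finset.card_univ, Fintype.card_finset, Fintype.card_fin, nsmul_eq_mul]
          push_cast; rfl
      _ = pr μ R k / 2 ^ k := by
          have : (4 : ℝ) ^ k = 2 ^ k * 2 ^ k := by rw [← mul_pow]; norm_num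
          rw [this]; field_simp
      _ ≤ pr μ R k / 2 := by
          apply div_le_div_of_nonneg_left hpr.le (by norm_num)
          calc (2 : ℝ) = 2 ^ 1 := by norm_num
            _ ≤ 2 ^ k := pow_le_pow_right₀ (by norm_num) hk
  have h3 : pr μ R k / 2 ≤ ∑ V ∈ N, π.real (GV μ R Λ V) := by linarith
  obtain ⟨V, hVN, hV⟩ : ∃ V ∈ N, pr μ R k / 2 / N.card ≤ π.real (GV μ R Λ V) := by
    by_contra hc
    push Not at hc
    have : ∑ V ∈ N, π.real (GV μ R Λ V) < ∑ _V ∈ N, pr μ R k / 2 / N.card :=
      Finset.sum_lt_sum_of_nonempty (Finset.card_pos.1 hN0) hc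
    rw [Finset.sum_const, nsmul_eq_mul, mul_div_cancel₀ _ hN0'.ne'] at this
    linarith
  have hVv : V.card < v := (Finset.mem_filter.1 hVN).2
  -- the conditional probabilities
  set gV : (Fin k → X) → ℝ := fun u => π.real {y | V.piecewise u y ∈ GV μ R Λ V} with hgV
  have hGm := GV_meas (μ := μ) hR Λ V
  have hgV_eq : ∀ u, gV u = mg μ V ((GV μ R Λ V).indicator fun _ => (1 : ℝ)) u := by
    intro u
    have hm : MeasurableSet {y : Fin k → X | V.piecewise u y ∈ GV μ R Λ V} :=
      hGm.preimage ((measurable_pw V).comp (measurable_const.prodMk measurable_id))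
    show π.real {y | V.piecewise u y ∈ GV μ R Λ V} = _
    rw [← integral_indicator_one hm]
    rfl
  have hgV_meas : Measurable gV := by
    have : gV = mg μ V ((GV μ R Λ V).indicator fun _ => (1 : ℝ)) := funext hgV_eq
    rw [this]
    exact mg_meas (measurable_const.indicator hGm) V
  have hgV_int : ∫ u, gV u ∂π = π.real (GV μ R Λ V) := by
    have h5 : Integrable ((GV μ R Λ V).indicator fun _ => (1 : ℝ)) π :=
      (integrable_const (1 : ℝ)).indicator hGm
    have h6 := int_pw (μ := μ) V h5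
    rw [← integral_indicator_one hGm]
    refine Eq.trans ?_ h6.symm
    refine integral_congr_ae (ae_of_all _ fun u => ?_)
    exact hgV_eq u
  have hgV_le : ∀ u, gV u ≤ ex μ R V u := by
    intro u
    rw [ex_eq hR]
    exact measureReal_mono fun y hy => hy.1
  have hgV_nonneg : ∀ u, 0 ≤ gV u := fun u => measureReal_nonneg
  obtain ⟨u, hu1, hu2⟩ : ∃ u, 0 < gV u ∧ ex μ R V u / (2 * N.card) ≤ gV u := by
    by_contra hc
    push Not at hc
    have hle : ∀ u, gV u ≤ ex μ R V u / (2 * N.card) := by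
      intro u
      rcases (hgV_nonneg u).eq_or_lt with h0 | h0
      · rw [← h0]; exact div_nonneg (ex_nonneg V u) (by positivity)
      · exact (hc u h0).le
    have hexI : Integrable (fun u => ex μ R V u / (2 * (N.card : ℝ))) π := by
      refine int_bdd ((ex_meas hR V).div_const _) (C := 1 / (2 * N.card)) fun u => ?_
      rw [abs_of_nonneg (div_nonneg (ex_nonneg V u) (by positivity))]
      exact div_le_div_of_nonneg_right (ex_le_one hR V u) (by positivity)
    have hgI : Integrable gV π := int_bdd hgV_meas (C := 1) fun u => by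
      rw [abs_of_nonneg (hgV_nonneg u)]; exact (hgV_le u).trans (ex_le_one hR V u)
    have hI : ∫ u, (ex μ R V u / (2 * (N.card : ℝ)) - gV u) ∂π ≤ 0 := by
      rw [integral_sub hexI hgI, hgV_int, integral_div, int_ex hR]
      have : pr μ R k / (2 * N.card) = pr μ R k / 2 / N.card := by rw [div_div]
      linarith
    have hz : ∀ᵐ u ∂π, ex μ R V u / (2 * (N.card : ℝ)) - gV u = 0 := by
      have h7 : 0 ≤ᵐ[π] fun u => ex μ R V u / (2 * (N.card : ℝ)) - gV u :=
        ae_of_all _ fun u => sub_nonneg.2 (hle u)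
      exact (integral_eq_zero_iff_of_nonneg_ae h7 (hexI.sub hgI)).1
        (le_antisymm hI (integral_nonneg_of_ae h7))
    have hz2 : ∀ᵐ u ∂π, ex μ R V u = 0 := by
      filter_upwards [hz] with u hu
      by_contra hne
      have hpos : 0 < ex μ R V u := lt_of_le_of_ne (ex_nonneg V u) (Ne.symm hne)
      have h8 : 0 < ex μ R V u / (2 * (N.card : ℝ)) := by positivity
      have h9 : 0 < gV u := by linarith
      have := hc u h9
      linarith
    have : pr μ R k = 0 := by
      rw [← int_ex hR V, integral_congr_ae hz2]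
      simp
    linarith
  have hexu : 0 < ex μ R V u := lt_of_lt_of_le hu1 (hgV_le u)
  have hsm := second_moment hr V u hGm (fun x hx => hx.1) (Λ := Λ) (g := gV u) hΛ.le
    (fun y hy hyu S hVS => by
      have h10 := hy.2 S hVS
      have h11 : ex μ R V y = ex μ R V u := mg_congr V _ hyu
      rwa [h11] at h10) rfl hu1
  have hfin : 1 / (2 * (N.card : ℝ) * (1 + Λ / r) ^ k) ≤ gV u / (ex μ R V u * (1 + Λ / r) ^ k) := by
    have hp : (0 : ℝ) < (1 + Λ / r) ^ k := by positivity
    rw [div_le_div_iff₀ (by positivity) (by positivity)]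
    rw [div_le_iff₀ (by positivity)] at hu2
    nlinarith
  refine hfin.trans (hsm.trans (measureReal_mono ?_))
  rintro ω ⟨c, hc⟩
  refine ⟨Vᶜ, c, ?_, ?_⟩
  · rw [Finset.card_compl, Fintype.card_fin]
    have := Finset.card_le_univ V
    rw [Fintype.card_fin] at this
    omega
  · intro i hi j hj hij
    have h12 := hc.1 i (Finset.mem_univ _) j (Finset.mem_univ _) hij
    rw [Finset.mem_compl] at hi hj
    simpa only [Finset.piecewise, if_neg hi, if_neg hj] using h12

end Pool.Agent.Helper63.SM
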